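import Pool.Agent.H92.S2.LUT2
import Pool.Agent.H75.SFU.KER

/-!
# MP_70ba79_ag, THEOREM S, part 2, row KER2: dimension of the space of the forms `b(q)`
-/

set_option autoImplicit false

namespace Pool.Agent.H91.SFV

open MvPolynomial
open Pool.Agent.H84.SM (dp cr dt)
open Pool.Agent.H3.SF Pool.Agent.H3.S2 Pool.Agent.H92.SF Pool.Agent.H92.S2
open Pool.Agent.H75.SFU (HC HC_fin HC_rank coeff_lin_mul coeff_lin_single hm_of_lin_mul)

/-- the kernel -/
theorem ker_mem2 (hDAT : T_DAT2) (hKQA : T_KQA2) (k F : Type) [Field k] [IsAlgClosed k]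
    [CharZero k] [Field F] [Algebra k F] (u : Fin 3 → F) (dd : Fin 3 → Derivation k F F)
    (δ j0 c0 : ℕ) (J : MvPolynomial (Fin 3) k) (m : ℕ) (G : F) (hB : Bw u dd δ j0 c0 J m G)
    (sg : ℕ) (S : MvPolynomial (Fin 3) k) (hC : Crs u dd m G sg S) (i : ℕ) (e : ℤ)
    (b : MvPolynomial (Fin 3) F) (hb : b ∈ HC i (BB k u (eu u dd) e))
    (h0 : aeval (qf u dd m G) b = 0) : ∃ c : MvPolynomial (Fin 3) F, (i = 0 → c = 0) ∧
      (1 ≤ i → C (aeval u S) * c ∈ HC (i - 1) (BB k u (eu u dd) (e - m + 1 + sg))) ∧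
      b = (∑ l, C (dd l G) * X l) * c := by
  obtain ⟨-, -, -, hmG, hu, -, hgd, -, -, -⟩ := hDAT k F u dd δ j0 c0 J m G hB
  obtain ⟨c, hc1, hc2, hc3⟩ := hKQA k F u dd δ j0 c0 J m G hB i b hb.1 h0
  refine ⟨c, hc1, fun hi => ⟨?_, fun a => ?_⟩, hc3⟩
  · have h1 := (isHomogeneous_C (Fin 3) (aeval u S)).mul (hc2 hi)
    rwa [zero_add] at h1
  rw [coeff_C_mul]
  refine ⟨?_, ?_⟩
  · -- integrality
    have h1 : ∀ l, Itg k u (dd l G * c.coeff a) := by
      intro l
      have h2 := Pool.Agent.H62.HIL.pf_KRO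
        ((aeval u : MvPolynomial (Fin 3) k →ₐ[k] F) : MvPolynomial (Fin 3) k →+* F)
        (Polynomial.C (∑ l, C (dd l G) * X l)) (Polynomial.C c) (by
          intro j a'
          rw [← Polynomial.C_mul, ← hc3, Polynomial.coeff_C]
          split_ifs
          · exact (hb.2 a').1
          · rw [coeff_zero]
            exact (Bb k u).zero_mem) 0 (Finsupp.single l 1) 0 a
      rw [Polynomial.coeff_C_zero, Polynomial.coeff_C_zero, coeff_lin_single] at h2
      exact h2
    obtain ⟨c', hc'⟩ := hC.cert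
    have h2 : ∀ x, Itg k u (u x ^ c' * (aeval u S * c.coeff a)) := by
      intro x
      obtain ⟨e', he1, he2⟩ := hc' x
      have h4 : u x ^ c' * (aeval u S * c.coeff a) = (aeval u S * u x ^ c') * c.coeff a := by ring
      rw [h4, he2, Finset.sum_mul]
      have h3 : ∀ l, Itg k u (e' l * dd l G * c.coeff a) := by
        intro l
        rw [mul_assoc]
        exact (Bb k u).mul_mem (he1 l).1 (h1 l)
      exact (Bb k u).sum_mem fun l _ => h3 l
    refine Pool.Agent.H62.HIL.pf_SAT
      ((aeval u : MvPolynomial (Fin 3) k →ₐ[k] F) : MvPolynomial (Fin 3) k →+* F) hB.ind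
      (Pool.Agent.H62.HIL.isRelPrime_X (κ := k) (i := (0 : Fin 3)) (j := 1) (by decide) c' c')
      (pow_ne_zero _ (X_ne_zero _)) (pow_ne_zero _ (X_ne_zero _)) ?_ ?_
    · have h3 := h2 0
      unfold Itg at h3
      rw [show ((aeval u : MvPolynomial (Fin 3) k →ₐ[k] F) : MvPolynomial (Fin 3) k →+* F)
        (X 0 ^ c') = u 0 ^ c' by simp]
      exact h3
    · have h3 := h2 1
      unfold Itg at h3
      rw [show ((aeval u : MvPolynomial (Fin 3) k →ₐ[k] F) : MvPolynomial (Fin 3) k →+* F)
        (X 1 ^ c') = u 1 ^ c' by simp]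
      exact h3
  · -- the degree
    have hp : (∑ l, C (dd l G) * X l : MvPolynomial (Fin 3) F) ≠ 0 := by
      intro h
      apply hmG
      have h1 : eu u dd G = ((m : ℤ) : F) * G := hB.hom
      have h2 : eu u dd G = ∑ l, u l * dd l G := by
        unfold eu
        simp [Fin.sum_univ_three]
      have h3 : ∀ l, dd l G = 0 := by
        intro l
        have h4 := coeff_lin_single (fun l => dd l G) l
        rw [h, coeff_zero] at h4
        exact h4.symm
      rw [h2, Finset.sum_eq_zero (fun l _ => by rw [h3 l, mul_zero])] at h1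
      rw [Int.cast_natCast] at h1
      exact h1.symm
    have h1 := hm_of_lin_mul (eu u dd) (fun l => dd l G) ((m : ℤ) - 1) e hgd hp c
      (by rw [← hc3]; exact fun a => (hb.2 a).2) a
    have h2 := Pool.Agent.H62.HIL.hm_mul (Pool.Agent.H62.HIL.hm_aeval hu hC.Sh) h1
    have h3 : (sg : ℤ) + (e - ((m : ℤ) - 1)) = e - m + 1 + sg := by ring
    rw [h3] at h2
    exact h2

/-- KER2 -/
theorem pf_KER2 (hDAT : T_DAT2) (hKQA : T_KQA2) : T_KER2 := by
  intro k F _ _ _ _ _ u dd δ j0 c0 J m G hB sg S hC i e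
  have := hB.fin e
  have := hB.fin (e - m + 1 + sg)
  have := HC_fin i (BB k u (eu u dd) e)
  have hS0 : aeval u S ≠ 0 := by
    intro h
    exact hC.S0 ((injective_iff_map_eq_zero _).mp hB.ind S h)
  set Φ : MvPolynomial (Fin 3) F →ₗ[k] MvPolynomial (Fin 2) F :=
    ((aeval (qf u dd m G) : MvPolynomial (Fin 3) F →ₐ[F]
      MvPolynomial (Fin 2) F).toLinearMap).restrictScalars k
    with hΦ
  have hΦa : ∀ b, Φ b = aeval (qf u dd m G) b := fun b => rfl
  set Ψ := Φ.domRestrict (HC i (BB k u (eu u dd) e)) with hΨ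
  refine ⟨LinearMap.range Ψ, inferInstance, ?_, ?_⟩
  · rintro f ⟨b, rfl⟩
    exact ⟨b.1, b.2.1, b.2.2, rfl⟩
  · have h1 := LinearMap.finrank_range_add_finrank_ker Ψ
    rw [HC_rank] at h1
    have hker : ∀ x ∈ LinearMap.ker Ψ, aeval (qf u dd m G) x.1 = 0 := fun x hx => hx
    have h2 : Module.finrank k (LinearMap.ker Ψ) ≤
        Module.finrank k (BB k u (eu u dd) (e - m + 1 + sg)) * (i + 1).choose 2 := by
      rcases Nat.eq_zero_or_pos i with hi | hi
      · have h3 : LinearMap.ker Ψ = ⊥ := by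
          rw [eq_bot_iff]
          intro x hx
          obtain ⟨c, hc1, -, hc3⟩ := ker_mem2 hDAT hKQA k F u dd δ j0 c0 J m G hB sg S hC i e
            x.1 x.2 (hker x hx)
          rw [hc1 hi, mul_zero] at hc3
          exact (Submodule.mem_bot k).mpr (Subtype.ext hc3)
        rw [h3, finrank_bot]
        exact Nat.zero_le _
      · have := HC_fin (i - 1) (BB k u (eu u dd) (e - m + 1 + sg))
        set Mt : MvPolynomial (Fin 3) F →ₗ[k] MvPolynomial (Fin 3) F :=
          (LinearMap.mulLeft F (∑ l, C (dd l G) * X l)).restrictScalars k with hMt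
        set Ms : MvPolynomial (Fin 3) F →ₗ[k] MvPolynomial (Fin 3) F :=
          (LinearMap.mulLeft F (C (aeval u S))).restrictScalars k with hMs
        have hCS : (C (aeval u S) : MvPolynomial (Fin 3) F) ≠ 0 := by
          rw [Ne, C_eq_zero]
          exact hS0
        have hinj : Function.Injective
            (Ms.comp (HC i (BB k u (eu u dd) e)).subtype) := by
          intro x y hxy
          have h4 : C (aeval u S) * (x : MvPolynomial (Fin 3) F) =
              C (aeval u S) * (y : MvPolynomial (Fin 3) F) := hxy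
          exact Subtype.ext (mul_left_cancel₀ hCS h4)
        have h3 : (LinearMap.ker Ψ).map (Ms.comp (HC i (BB k u (eu u dd) e)).subtype) ≤
            (HC (i - 1) (BB k u (eu u dd) (e - m + 1 + sg))).map Mt := by
          rintro _ ⟨x, hx, rfl⟩
          obtain ⟨c, -, hc2, hc3⟩ := ker_mem2 hDAT hKQA k F u dd δ j0 c0 J m G hB sg S hC i e
            x.1 x.2 (hker x hx)
          refine ⟨C (aeval u S) * c, hc2 hi, ?_⟩
          change (∑ l, C (dd l G) * X l) * (C (aeval u S) * c) =
            C (aeval u S) * (x : MvPolynomial (Fin 3) F)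
          rw [hc3]
          ring
        have h4 := Submodule.finrank_mono h3
        have h5 := Submodule.finrank_map_le Mt (HC (i - 1) (BB k u (eu u dd) (e - m + 1 + sg)))
        have h6 : Module.finrank k
            ((LinearMap.ker Ψ).map (Ms.comp (HC i (BB k u (eu u dd) e)).subtype)) =
            Module.finrank k (LinearMap.ker Ψ) := by
          apply LinearEquiv.finrank_eq
          exact (Submodule.equivMapOfInjective _ hinj _).symm
        rw [HC_rank] at h5
        have h7 : i - 1 + 2 = i + 1 := by omega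
        rw [h7] at h5
        omega
    omega

end Pool.Agent.H91.SFV
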